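import Pool.Agent.WR3.StmtsA

set_option autoImplicit false

/-! # Row MIN: a minimum principle -/

namespace Pool.Agent.WR3.H66

open Set

lemma bar (p : ℕ) {α β v : ℝ} (hβ : 0 < β) (hβα : β < α) (hv : α < v) :
    (1 + ((α - β) / 2) / v) / v ^ (p + 1) ≤
      (1 / (v - α) ^ (p + 1) + 1 / (v + β) ^ (p + 1)) / 2 := by
  have hv0 : 0 < v := by linarith
  have ha : 0 < v - α := by linarith
  have hb : 0 < v + β := by linarith
  have hg : 0 < (α - β) / 2 := by linarith
  have hy : 0 < v - (α - β) / 2 := by linarith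
  have h1 : 1 / (v - (α - β) / 2) ^ (p + 1) ≤
      (1 / (v - α) ^ (p + 1) + 1 / (v + β) ^ (p + 1)) / 2 := by
    have hc := (convexOn_zpow (𝕜 := ℝ) (-((p + 1 : ℕ) : ℤ))).2 (mem_Ioi.mpr ha) (mem_Ioi.mpr hb)
      (by norm_num : (0 : ℝ) ≤ 1 / 2) (by norm_num : (0 : ℝ) ≤ 1 / 2) (by norm_num)
    simp only [zpow_neg, zpow_natCast, smul_eq_mul] at hc
    have e : 1 / 2 * (v - α) + 1 / 2 * (v + β) = v - (α - β) / 2 := by ring
    rw [e] at hc
    rw [one_div, one_div, one_div]
    linarith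
  refine le_trans ?_ h1
  have h2 : (1 + ((α - β) / 2) / v) / v ≤ 1 / (v - (α - β) / 2) := by
    rw [div_le_div_iff₀ hv0 hy]
    have e : (1 + ((α - β) / 2) / v) * (v - (α - β) / 2) =
        v - ((α - β) / 2) ^ 2 / v := by
      field_simp
      ring
    rw [e]
    have : 0 ≤ ((α - β) / 2) ^ 2 / v := by positivity
    linarith
  have h3 : 1 ≤ 1 + ((α - β) / 2) / v := by
    have : 0 ≤ ((α - β) / 2) / v := by positivity
    linarith
  calc (1 + ((α - β) / 2) / v) / v ^ (p + 1)
      ≤ (1 + ((α - β) / 2) / v) ^ (p + 1) / v ^ (p + 1) := by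
        apply div_le_div_of_nonneg_right _ (by positivity)
        exact le_self_pow₀ h3 (by omega)
    _ = ((1 + ((α - β) / 2) / v) / v) ^ (p + 1) := by rw [div_pow]
    _ ≤ (1 / (v - (α - β) / 2)) ^ (p + 1) := by
        apply pow_le_pow_left₀ _ h2
        have := h3
        positivity
    _ = 1 / (v - (α - β) / 2) ^ (p + 1) := by rw [div_pow, one_pow]

theorem min : MinStmt := by
  intro p D hD
  have hβ : 0 < Real.log (3 / 2) := Real.log_pos (by norm_num)
  have hβα : Real.log (3 / 2) < Real.log 2 := Real.log_lt_log (by norm_num) (by norm_num)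
  have hα1 : Real.log 2 < 1 := by
    have := Real.log_two_lt_d9
    linarith
  set α := Real.log 2 with hα
  set β := Real.log (3 / 2) with hβdef
  have hg : 0 < (α - β) / 2 := by linarith
  set γ := (α - β) / 2 with hγ
  refine ⟨2 ^ (p + 1) * (D / γ), by positivity, ?_⟩
  intro f v0 m B hv0 hB hf hm v hv
  have hκ : 0 ≤ D / γ := by positivity
  set κ := D / γ with hκdef
  have hκγ : κ * γ = D := by
    rw [hκdef]
    field_simp
  have hstart : 0 < v0 - α := by linarith
  -- the barrier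
  have hbar : ∀ x, v0 ≤ x → D / x ^ (p + 2) ≤
      κ * ((1 / (x - α) ^ (p + 1) + 1 / (x + β) ^ (p + 1)) / 2 - 1 / x ^ (p + 1)) := by
    intro x hx
    have hx0 : 0 < x := by linarith
    have h1 := bar p hβ hβα (v := x) (by linarith)
    have h2 : (1 + γ / x) / x ^ (p + 1) = 1 / x ^ (p + 1) + γ / x ^ (p + 2) := by
      field_simp
      ring
    have h3 : γ / x ^ (p + 2) ≤
        (1 / (x - α) ^ (p + 1) + 1 / (x + β) ^ (p + 1)) / 2 - 1 / x ^ (p + 1) := by
      rw [← hγ] at h1
      rw [h2] at h1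
      linarith
    calc D / x ^ (p + 2) = κ * (γ / x ^ (p + 2)) := by rw [← hκγ]; ring
      _ ≤ _ := mul_le_mul_of_nonneg_left h3 hκ
  have key : ∀ δ : ℝ, 0 < δ → m - 2 ^ (p + 1) * κ / v0 ^ (p + 1) - δ * (v - v0 + α) ≤ f v := by
    intro δ hδ
    set G : ℝ → ℝ := fun x => f x - κ * (1 / x ^ (p + 1)) + δ * (x - v0 + α) with hG
    have hsmall : ∀ x, v0 - α ≤ x → κ * (1 / x ^ (p + 1)) ≤ 2 ^ (p + 1) * κ / v0 ^ (p + 1) := by
      intro x hx
      have hx0 : 0 < x := by linarith
      have hx2 : v0 / 2 ≤ x := by linarith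
      have h1 : (v0 / 2) ^ (p + 1) ≤ x ^ (p + 1) := pow_le_pow_left₀ (by linarith) hx2 _
      have h2 : 1 / x ^ (p + 1) ≤ 1 / (v0 / 2) ^ (p + 1) :=
        one_div_le_one_div_of_le (by positivity) h1
      have h3 : 1 / (v0 / 2) ^ (p + 1) = 2 ^ (p + 1) / v0 ^ (p + 1) := by
        rw [div_pow, one_div_div]
      rw [h3] at h2
      calc κ * (1 / x ^ (p + 1)) ≤ κ * (2 ^ (p + 1) / v0 ^ (p + 1)) :=
            mul_le_mul_of_nonneg_left h2 hκ
        _ = 2 ^ (p + 1) * κ / v0 ^ (p + 1) := by ring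
    have hGb : BddBelow (G '' Ici (v0 - α)) := by
      refine ⟨-B - 2 ^ (p + 1) * κ / v0 ^ (p + 1), ?_⟩
      rintro y ⟨x, hx, rfl⟩
      have hx' : v0 - α ≤ x := hx
      have h1 := hB x hx'
      have h2 := hsmall x hx'
      have h3 : 0 ≤ δ * (x - v0 + α) := mul_nonneg hδ.le (by linarith)
      simp only [hG]
      linarith
    have hne : (G '' Ici (v0 - α)).Nonempty := ⟨G (v0 - α), v0 - α, mem_Ici.mpr le_rfl, rfl⟩
    set m' := sInf (G '' Ici (v0 - α)) with hm'
    have hle : ∀ x, v0 - α ≤ x → m' ≤ G x := fun x hx => csInf_le hGb ⟨x, hx, rfl⟩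
    have hfar : ∀ x, v0 ≤ x → m' + δ * γ ≤ G x := by
      intro x hx
      have h1 := hle (x - α) (by linarith)
      have h2 := hle (x + β) (by linarith)
      have h3 := hf x hx
      have h4 := hbar x hx
      simp only [hG] at h1 h2 ⊢
      have h5 : δ * (x - v0 + α) = (δ * (x - α - v0 + α) + δ * (x + β - v0 + α)) / 2 + δ * γ := by
        rw [hγ]; ring
      rw [h5]
      have h6 : κ * ((1 / (x - α) ^ (p + 1) + 1 / (x + β) ^ (p + 1)) / 2 - 1 / x ^ (p + 1)) =
        (κ * (1 / (x - α) ^ (p + 1)) + κ * (1 / (x + β) ^ (p + 1))) / 2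
          - κ * (1 / x ^ (p + 1)) := by ring
      rw [h6] at h4
      linarith
    have hnear : ∀ x, v0 - α ≤ x → x < v0 →
        m - 2 ^ (p + 1) * κ / v0 ^ (p + 1) ≤ G x := by
      intro x hx hx2
      have h1 := hm x hx hx2
      have h2 := hsmall x hx
      have h3 : 0 ≤ δ * (x - v0 + α) := mul_nonneg hδ.le (by linarith)
      simp only [hG]
      linarith
    have hδγ : 0 < δ * γ := mul_pos hδ hg
    have hmm : m - 2 ^ (p + 1) * κ / v0 ^ (p + 1) ≤ m' := by
      by_contra hcon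
      push Not at hcon
      set m2 := m - 2 ^ (p + 1) * κ / v0 ^ (p + 1) with hm2
      have h1 : m' < m' + Min.min (δ * γ) (m2 - m') := by
        have : 0 < Min.min (δ * γ) (m2 - m') := lt_min hδγ (by linarith)
        linarith
      obtain ⟨y, ⟨x, hx, rfl⟩, hlt⟩ := exists_lt_of_csInf_lt hne h1
      have hx' : v0 - α ≤ x := hx
      rcases lt_or_ge x v0 with h2 | h2
      · have h3 := hnear x hx' h2
        have h4 := min_le_right (δ * γ) (m2 - m')
        linarith
      · have h3 := hfar x h2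
        have h4 := min_le_left (δ * γ) (m2 - m')
        linarith
    have h1 := hle v (by linarith)
    have h2 : 0 ≤ κ * (1 / v ^ (p + 1)) := by
      have : 0 < v := by linarith
      positivity
    simp only [hG] at h1
    linarith
  by_contra hcon
  push Not at hcon
  have hpos : 0 < v - v0 + α := by linarith
  have h1 := key ((m - 2 ^ (p + 1) * κ / v0 ^ (p + 1) - f v) / (2 * (v - v0 + α)))
    (by apply div_pos (by linarith) (by linarith))
  have h2 : (m - 2 ^ (p + 1) * κ / v0 ^ (p + 1) - f v) / (2 * (v - v0 + α)) * (v - v0 + α) =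
      (m - 2 ^ (p + 1) * κ / v0 ^ (p + 1) - f v) / 2 := by
    field_simp
  rw [h2] at h1
  linarith

end Pool.Agent.WR3.H66
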